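import Mathlib

/-!
# Two Grothendieck spaces whose product is not weakly Grothendieck

Let `D` be an uncountable set (we use the reals), and let `K` be the compact space of all functions
from the countable subsets of `D` to `Bool`.  An ultrafilter on `D` has a trace in `K`.  For a
nonprincipal ultrafilter `U` on a countable set `W` let `X_U` be the subspace of `K` consisting of
the zero function, the traces of the points of `D`, and the traces of all images of `U` under
injections `W → D`.  The copy of `D` is dense in `X_U` and every infinite subset of it has an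
accumulation point in `X_U`; hence `X_U` is Grothendieck (double limit argument).  If no injective
images of `U` and `V` in `D` agree then, in `X_U × X_V`, the set of pairs `(d, d)` with `d` in a
fixed countable subset of `D` is open and closed; the indicator functions of these sets form a family
that is countably compact in `C_p(X_U × X_V)` but whose closure is not compact, because the indicator
function of the whole diagonal copy of `D` is not continuous at the point `(0, 0)`.
-/

namespace Pool.Agent.Results.MP_20595b_gt.ProductFails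

open Filter Topology Set

/-- `C_p(X)`: the continuous real functions on `X` with the topology of pointwise convergence
(the subspace topology from the product `X → ℝ`). -/
abbrev Cp (X : Type) [TopologicalSpace X] : Type := {f : X → ℝ // Continuous f}

/-- `A` is countably compact in `Z`: every infinite subset of `A` has an accumulation point in
`Z`. -/
def CountablyCompactIn {Z : Type} [TopologicalSpace Z] (A : Set Z) : Prop :=
  ∀ B ⊆ A, B.Infinite → ∃ z : Z, AccPt z (𝓟 B)

/-- `Z` is a g-space. -/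
def IsGSpace (Z : Type) [TopologicalSpace Z] : Prop :=
  ∀ A : Set Z, CountablyCompactIn A → IsCompact (closure A)

/-- `X` is weakly Grothendieck: `C_p(X)` is a g-space. -/
def IsWeaklyGrothendieck (X : Type) [TopologicalSpace X] : Prop := IsGSpace (Cp X)

/-- `X` is Grothendieck: every subspace of `C_p(X)` is a g-space. -/
def IsGrothendieck (X : Type) [TopologicalSpace X] : Prop := ∀ S : Set (Cp X), IsGSpace S

/-! ### Sequences and cluster points -/

theorem seq_cluster {Z : Type} [TopologicalSpace Z] [T1Space Z] {A : Set Z}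
    (hA : CountablyCompactIn A) (a : ℕ → Z) (ha : ∀ n, a n ∈ A) :
    ∃ z, MapClusterPt z atTop a := by
  by_cases h : (range a).Finite
  · have : Finite (range a) := h
    obtain ⟨z, hz⟩ := Finite.exists_infinite_fiber (fun n : ℕ => (⟨a n, mem_range_self n⟩ : range a))
    refine ⟨z.1, mapClusterPt_iff_frequently.2 fun s hs => ?_⟩
    rw [Nat.frequently_atTop_iff_infinite]
    have hz' : ((fun n : ℕ => (⟨a n, mem_range_self n⟩ : range a)) ⁻¹' {z}).Infinite :=
      Set.infinite_coe_iff.1 hz
    refine hz'.mono fun n hn => ?_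
    have : a n = z.1 := congrArg Subtype.val hn
    show a n ∈ s
    rw [this]
    exact mem_of_mem_nhds hs
  · obtain ⟨z, hz⟩ := hA (range a) (by rintro _ ⟨n, rfl⟩; exact ha n) h
    refine ⟨z, mapClusterPt_iff_frequently.2 fun s hs => ?_⟩
    rw [Nat.frequently_atTop_iff_infinite]
    intro hfin
    have hfin' : ((a '' {n | a n ∈ s}) \ {z}).Finite := (hfin.image a).subset sdiff_subset
    have hU : s ∩ ((a '' {n | a n ∈ s}) \ {z})ᶜ ∈ 𝓝 z :=
      inter_mem hs (hfin'.isClosed.isOpen_compl.mem_nhds (by simp))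
    obtain ⟨y, ⟨⟨hy1, hy2⟩, ⟨n, rfl⟩⟩, hyz⟩ := accPt_iff_nhds.1 hz _ hU
    exact hy2 ⟨⟨n, hy1, rfl⟩, hyz⟩

theorem cluster_eq_of_tendsto {Z : Type} [TopologicalSpace Z] [T2Space Z] {u : ℕ → Z} {a b : Z}
    (ha : MapClusterPt a atTop u) (hb : Tendsto u atTop (𝓝 b)) : a = b := by
  have h1 : ClusterPt a (𝓝 b) := ClusterPt.mono ha hb
  exact eq_of_nhds_neBot h1

theorem cluster_mem_closed {Z : Type} [TopologicalSpace Z] {u : ℕ → Z} {a : Z} {F : Set Z}
    (ha : MapClusterPt a atTop u) (hF : IsClosed F) (hu : ∀ᶠ n in atTop, u n ∈ F) : a ∈ F := by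
  by_contra h
  have h1 := mapClusterPt_iff_frequently.1 ha _ (hF.isOpen_compl.mem_nhds h)
  exact (h1.and_eventually hu).exists.elim fun n hn => hn.1 hn.2

theorem cluster_map {Z W : Type} [TopologicalSpace Z] [TopologicalSpace W] {u : ℕ → Z} {a : Z}
    (ha : MapClusterPt a atTop u) {g : Z → W} (hg : Continuous g) :
    MapClusterPt (g a) atTop (fun n => g (u n)) :=
  ha.continuousAt_comp hg.continuousAt

/-! ### The double limit argument -/

section DoubleLimit

variable {X : Type} [TopologicalSpace X] {D : Set X} {A S : Set (X → ℝ)}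

omit [TopologicalSpace X] in
theorem exists_close {f : X → ℝ} (hf : f ∈ closure A) (F : Finset X) {ε : ℝ} (hε : 0 < ε) :
    ∃ g ∈ A, ∀ x ∈ F, |g x - f x| < ε := by
  have hU : {g : X → ℝ | ∀ x ∈ F, |g x - f x| < ε} ∈ 𝓝 f := by
    have : {g : X → ℝ | ∀ x ∈ F, |g x - f x| < ε} = ⋂ x ∈ F, {g : X → ℝ | |g x - f x| < ε} := by
      ext g; simp
    rw [this, Filter.biInter_finset_mem]
    intro x _
    have h1 : Continuous fun g : X → ℝ => |g x - f x| := by fun_prop
    have h2 : IsOpen {g : X → ℝ | |g x - f x| < ε} := isOpen_lt h1 continuous_const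
    exact h2.mem_nhds (by simpa using hε)
  obtain ⟨g, hg1, hg2⟩ := mem_closure_iff_nhds.1 hf _ hU
  exact ⟨g, hg2, hg1⟩

/-- Step 1: limits of a relatively countably compact family are continuous along `D`. -/
theorem step1 (hD : ∀ d : ℕ → X, (∀ n, d n ∈ D) → ∃ y, MapClusterPt y atTop d)
    (hAc : ∀ g ∈ A, Continuous g) (hS : ∀ g ∈ S, Continuous g)
    (hA : ∀ a : ℕ → X → ℝ, (∀ n, a n ∈ A) → ∃ g ∈ S, MapClusterPt g atTop a)
    {f : X → ℝ} (hf : f ∈ closure A) (x : X) : Tendsto f (𝓝[D] x) (𝓝 (f x)) := by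
  classical
  by_contra hnot
  have hfreq : ∃ ε > 0, ∃ᶠ d in 𝓝[D] x, ε ≤ |f d - f x| := by
    rw [Metric.tendsto_nhds] at hnot
    push Not at hnot
    obtain ⟨ε, hε, h⟩ := hnot
    exact ⟨ε, hε, h.mono fun d hd => by simpa [Real.dist_eq] using hd⟩
  obtain ⟨ε, hε, hfr⟩ := hfreq
  -- the inductive construction
  obtain ⟨s, hs1, hs2⟩ := exists_seq_of_forall_finset_exists
    (α := (X → ℝ) × X × ℕ)
    (fun p => p.1 ∈ A ∧ p.2.1 ∈ D ∧ |p.1 x - f x| < 1 / ((p.2.2 : ℝ) + 1) ∧ ε ≤ |f p.2.1 - f x|)
    (fun p q => p.2.2 < q.2.2 ∧ |q.1 p.2.1 - f p.2.1| < 1 / ((q.2.2 : ℝ) + 1) ∧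
      |p.1 q.2.1 - p.1 x| < 1 / ((q.2.2 : ℝ) + 1)) (by
    intro s hs
    set k : ℕ := s.sup (fun p => p.2.2) + 1 with hk
    have hkpos : (0 : ℝ) < 1 / ((k : ℝ) + 1) := by positivity
    obtain ⟨g, hgA, hg⟩ := exists_close hf (insert x (s.image fun p => p.2.1)) hkpos
    have hev : ∀ᶠ d in 𝓝[D] x, d ∈ D ∧ ∀ p ∈ s, |p.1 d - p.1 x| < 1 / ((k : ℝ) + 1) := by
      refine (eventually_mem_nhdsWithin).and ?_
      rw [Filter.eventually_all_finset]
      intro p hp
      have hc : Continuous p.1 := hAc _ (hs p hp).1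
      have h1 : Continuous fun d => |p.1 d - p.1 x| := by fun_prop
      have h2 : IsOpen {d | |p.1 d - p.1 x| < 1 / ((k : ℝ) + 1)} := isOpen_lt h1 continuous_const
      exact mem_nhdsWithin_of_mem_nhds (h2.mem_nhds (by simpa using hkpos))
    obtain ⟨d, hd1, hd2, hd3⟩ := (hfr.and_eventually hev).exists
    refine ⟨(g, d, k), ⟨hgA, hd2, hg x (Finset.mem_insert_self _ _), hd1⟩, fun p hp => ⟨?_, ?_, hd3 p hp⟩⟩
    · have := Finset.le_sup (f := fun p : (X → ℝ) × X × ℕ => p.2.2) hp
      simp only [hk] at this ⊢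
      omega
    · exact hg _ (Finset.mem_insert_of_mem (Finset.mem_image_of_mem _ hp)))
  have hk : ∀ n, n ≤ (s n).2.2 := by
    have hmono : StrictMono fun n => (s n).2.2 := strictMono_nat_of_lt_succ fun n => (hs2 n (n + 1) (by omega)).1
    exact fun n => hmono.id_le n
  have hlim : ∀ (c : ℝ) (u : ℕ → ℝ) (N : ℕ), (∀ n, N < n → |u n - c| < 1 / (((s n).2.2 : ℝ) + 1)) →
      Tendsto u atTop (𝓝 c) := by
    intro c u N hu
    rw [tendsto_iff_norm_sub_tendsto_zero]
    have h0 : Tendsto (fun n : ℕ => 1 / ((n : ℝ) + 1)) atTop (𝓝 0) := tendsto_one_div_add_atTop_nhds_zero_nat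
    refine squeeze_zero' (Eventually.of_forall fun n => norm_nonneg _) ?_ h0
    filter_upwards [eventually_gt_atTop N] with n hn
    have h1 := hu n hn
    have h2 : (n : ℝ) ≤ ((s n).2.2 : ℝ) := by exact_mod_cast hk n
    rw [Real.norm_eq_abs]
    refine h1.le.trans (one_div_le_one_div_of_le (by positivity) (by linarith))
  obtain ⟨g, hgS, hg⟩ := hA (fun n => (s n).1) (fun n => (hs1 n).1)
  obtain ⟨y, hy⟩ := hD (fun n => (s n).2.1) (fun n => (hs1 n).2.1)
  have hgx : g x = f x := by
    refine cluster_eq_of_tendsto (cluster_map hg (continuous_apply x)) (hlim _ _ 0 fun n _ => (hs1 n).2.2.1)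
  have hgd : ∀ m, g (s m).2.1 = f (s m).2.1 := fun m =>
    cluster_eq_of_tendsto (cluster_map hg (continuous_apply _)) (hlim _ _ m fun n hn => (hs2 m n hn).2.1)
  have hfy : ∀ i, (s i).1 y = (s i).1 x := fun i =>
    cluster_eq_of_tendsto (cluster_map hy (hAc _ (hs1 i).1)) (hlim _ _ i fun n hn => (hs2 i n hn).2.2)
  have hgy : g y = g x := by
    have : g ∈ {h : X → ℝ | h y = h x} := cluster_mem_closed hg
      (isClosed_eq (continuous_apply _) (continuous_apply _)) (Eventually.of_forall fun n => hfy n)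
    exact this
  have hbad : g y ∈ {t : ℝ | ε ≤ |t - f x|} := by
    refine cluster_mem_closed (cluster_map hy (hS g hgS)) (isClosed_le continuous_const (by fun_prop))
      (Eventually.of_forall fun n => ?_)
    show ε ≤ |g (s n).2.1 - f x|
    rw [hgd]
    exact (hs1 n).2.2.2
  rw [hgy, hgx] at hbad
  simp at hbad
  linarith

theorem cont_of_dense (hDd : Dense D) {f : X → ℝ} (hf : ∀ x, Tendsto f (𝓝[D] x) (𝓝 (f x))) :
    Continuous f := by
  rw [continuous_iff_continuousAt]
  intro x
  rw [ContinuousAt, Metric.tendsto_nhds]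
  intro ε hε
  have h1 := (Metric.tendsto_nhds.1 (hf x)) (ε / 2) (by linarith)
  rw [eventually_nhdsWithin_iff, eventually_nhds_iff] at h1
  obtain ⟨U, hU, hUo, hxU⟩ := h1
  filter_upwards [hUo.mem_nhds hxU] with y hy
  have : (𝓝[D] y).NeBot := mem_closure_iff_nhdsWithin_neBot.1 (hDd y)
  have h2 : ∀ᶠ d in 𝓝[D] y, f d ∈ Metric.closedBall (f x) (ε / 2) := by
    filter_upwards [eventually_mem_nhdsWithin, mem_nhdsWithin_of_mem_nhds (hUo.mem_nhds hy)] with d hd hdU
    exact (hU d hdU hd).le
  have h3 := Metric.isClosed_closedBall.mem_of_tendsto (hf y) h2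
  rw [Metric.mem_closedBall] at h3
  linarith


theorem exists_seq_dense (hDd : Dense D) (hne : D.Nonempty) (F : Finset (X → ℝ))
    (hF : ∀ g ∈ F, Continuous g) :
    ∃ e : ℕ → X, (∀ n, e n ∈ D) ∧ ∀ x, ∀ δ > 0, ∃ i, ∀ g ∈ F, |g (e i) - g x| < δ := by
  classical
  -- the joint map
  set Φ : X → (F → ℝ) := fun x g => g.1 x with hΦ
  have hΦc : Continuous Φ := continuous_pi fun g => hF g.1 g.2
  obtain ⟨t, ht1, ht2⟩ := TopologicalSpace.exists_countable_dense (Φ '' D)
  obtain ⟨d0, hd0⟩ := hne
  have : Nonempty (Φ '' D) := ⟨⟨_, mem_image_of_mem _ hd0⟩⟩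
  obtain ⟨u, hu⟩ := ht1.exists_eq_range ht2.nonempty
  choose e he1 he2 using fun n => (u n).2
  refine ⟨e, he1, fun x δ hδ => ?_⟩
  -- first a point of `D`
  obtain ⟨d, hdD, hd⟩ : ∃ d ∈ D, ∀ g ∈ F, |g d - g x| < δ / 2 := by
    have hU : {y : X | ∀ g ∈ F, |g y - g x| < δ / 2} ∈ 𝓝 x := by
      have : {y : X | ∀ g ∈ F, |g y - g x| < δ / 2} = ⋂ g ∈ F, {y : X | |g y - g x| < δ / 2} := by
        ext g; simp
      rw [this, Filter.biInter_finset_mem]
      intro g hg
      have hc := hF g hg
      have h1 : Continuous fun y : X => |g y - g x| := by fun_prop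
      have h2 : IsOpen {y : X | |g y - g x| < δ / 2} := isOpen_lt h1 continuous_const
      exact h2.mem_nhds (by simpa using hδ)
    obtain ⟨y, hy1, hy2⟩ := mem_closure_iff_nhds.1 (hDd x) _ hU
    exact ⟨y, hy2, hy1⟩
  have hV : IsOpen {z : Φ '' D | ∀ g : F, |z.1 g - g.1 d| < δ / 2} := by
    have : {z : Φ '' D | ∀ g : F, |z.1 g - g.1 d| < δ / 2} = ⋂ g : F, {z : Φ '' D | |z.1 g - g.1 d| < δ / 2} := by
      ext g; simp
    rw [this]
    refine isOpen_iInter_of_finite fun g => ?_
    exact isOpen_lt (((continuous_apply g).comp continuous_subtype_val).sub continuous_const).abs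
      continuous_const
  obtain ⟨z, hz1, hz2⟩ := ht2.exists_mem_open hV ⟨⟨Φ d, mem_image_of_mem _ hdD⟩, fun g => by simpa [hΦ] using hδ⟩
  rw [hu] at hz1
  obtain ⟨i, rfl⟩ := hz1
  refine ⟨i, fun g hg => ?_⟩
  have h1 := hd g hg
  have h2 := hz2 ⟨g, hg⟩
  simp only at h2
  rw [← he2 i] at h2
  have h3 : Φ (e i) ⟨g, hg⟩ = g (e i) := rfl
  rw [h3] at h2
  calc |g (e i) - g x| = |(g (e i) - g d) + (g d - g x)| := by ring_nf
    _ ≤ |g (e i) - g d| + |g d - g x| := abs_add_le _ _
    _ < δ / 2 + δ / 2 := add_lt_add h2 h1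
    _ = δ := by ring

/-- Step 2: every limit is the limit of a sequence, hence lies in `S`. -/
theorem step2 (hD : ∀ d : ℕ → X, (∀ n, d n ∈ D) → ∃ y, MapClusterPt y atTop d)
    (hDd : Dense D) (hne : D.Nonempty)
    (hAc : ∀ g ∈ A, Continuous g) (hS : ∀ g ∈ S, Continuous g)
    (hA : ∀ a : ℕ → X → ℝ, (∀ n, a n ∈ A) → ∃ g ∈ S, MapClusterPt g atTop a)
    {f : X → ℝ} (hf : f ∈ closure A) : f ∈ S := by
  classical
  have hfc : Continuous f := cont_of_dense hDd (step1 hD hAc hS hA hf)
  obtain ⟨s, hs1, hs2⟩ := exists_seq_of_forall_finset_exists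
    (α := (X → ℝ) × (Finset (X → ℝ)) × (ℕ → X) × ℕ)
    (fun p => p.1 ∈ A ∧ p.1 ∈ p.2.1 ∧ f ∈ p.2.1 ∧ (∀ n, p.2.2.1 n ∈ D) ∧ (∀ g ∈ p.2.1, Continuous g) ∧
      ∀ x, ∀ δ > 0, ∃ i, ∀ g ∈ p.2.1, |g (p.2.2.1 i) - g x| < δ)
    (fun p q => p.2.2.2 < q.2.2.2 ∧ p.2.1 ⊆ q.2.1 ∧
      ∀ i ≤ q.2.2.2, |q.1 (p.2.2.1 i) - f (p.2.2.1 i)| < 1 / ((q.2.2.2 : ℝ) + 1)) (by
    intro s hs
    set k : ℕ := s.sup (fun p => p.2.2.2) + 1 with hk
    have hkpos : (0 : ℝ) < 1 / ((k : ℝ) + 1) := by positivity
    obtain ⟨g, hgA, hg⟩ := exists_close hf (s.biUnion fun p => (Finset.range (k + 1)).image p.2.2.1) hkpos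
    have hFc : ∀ h ∈ insert f (insert g (s.biUnion fun p => p.2.1)), Continuous h := by
      intro h hh
      rcases Finset.mem_insert.1 hh with rfl | hh
      · exact hfc
      rcases Finset.mem_insert.1 hh with rfl | hh
      · exact hAc _ hgA
      · obtain ⟨p, hp, hhp⟩ := Finset.mem_biUnion.1 hh
        exact (hs p hp).2.2.2.2.1 _ hhp
    obtain ⟨e, he1, he2⟩ := exists_seq_dense hDd hne (insert f (insert g (s.biUnion fun p => p.2.1))) hFc
    refine ⟨(g, insert f (insert g (s.biUnion fun p => p.2.1)), e, k),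
      ⟨hgA, by simp, by simp, he1, hFc, he2⟩, fun p hp => ⟨?_, ?_, fun i hi => ?_⟩⟩
    · have := Finset.le_sup (f := fun p : (X → ℝ) × (Finset (X → ℝ)) × (ℕ → X) × ℕ => p.2.2.2) hp
      simp only [hk] at this ⊢
      omega
    · intro h hh
      exact Finset.mem_insert_of_mem (Finset.mem_insert_of_mem (Finset.mem_biUnion.2 ⟨p, hp, hh⟩))
    · refine hg _ (Finset.mem_biUnion.2 ⟨p, hp, Finset.mem_image_of_mem _ ?_⟩)
      rw [Finset.mem_range]
      simp only at hi
      omega)
  have hk : ∀ n, n ≤ (s n).2.2.2 := by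
    have hmono : StrictMono fun n => (s n).2.2.2 := strictMono_nat_of_lt_succ fun n => (hs2 n (n + 1) (by omega)).1
    exact fun n => hmono.id_le n
  obtain ⟨g, hgS, hg⟩ := hA (fun n => (s n).1) (fun n => (hs1 n).1)
  have hge : ∀ m i, g ((s m).2.2.1 i) = f ((s m).2.2.1 i) := by
    intro m i
    refine cluster_eq_of_tendsto (cluster_map hg (continuous_apply _)) ?_
    rw [tendsto_iff_norm_sub_tendsto_zero]
    have h0 : Tendsto (fun n : ℕ => 1 / ((n : ℝ) + 1)) atTop (𝓝 0) := tendsto_one_div_add_atTop_nhds_zero_nat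
    refine squeeze_zero' (Eventually.of_forall fun n => norm_nonneg _) ?_ h0
    filter_upwards [eventually_gt_atTop m, eventually_ge_atTop i] with n hn hi
    have h1 := (hs2 m n hn).2.2 i (hi.trans (hk n))
    have h2 : (n : ℝ) ≤ ((s n).2.2.2 : ℝ) := by exact_mod_cast hk n
    rw [Real.norm_eq_abs]
    refine h1.le.trans (one_div_le_one_div_of_le (by positivity) (by linarith))
  have hfg : g = f := by
    funext x
    have hpos : ∀ n : ℕ, (0 : ℝ) < 1 / ((n : ℝ) + 1) := fun n => by positivity
    choose i hi using fun n => (hs1 n).2.2.2.2.2 x (1 / ((n : ℝ) + 1)) (hpos n)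
    obtain ⟨y, hy⟩ := hD (fun n => (s n).2.2.1 (i n)) (fun n => (hs1 n).2.2.2.1 _)
    have hlim : ∀ h : X → ℝ, (∃ N, ∀ n ≥ N, h ∈ (s n).2.1) →
        Tendsto (fun n => h ((s n).2.2.1 (i n))) atTop (𝓝 (h x)) := by
      rintro h ⟨N, hN⟩
      rw [tendsto_iff_norm_sub_tendsto_zero]
      have h0 : Tendsto (fun n : ℕ => 1 / ((n : ℝ) + 1)) atTop (𝓝 0) := tendsto_one_div_add_atTop_nhds_zero_nat
      refine squeeze_zero' (Eventually.of_forall fun n => norm_nonneg _) ?_ h0
      filter_upwards [eventually_ge_atTop N] with n hn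
      rw [Real.norm_eq_abs]
      exact (hi n h (hN n hn)).le
    have hmem : ∀ m n, m ≤ n → (s m).1 ∈ (s n).2.1 := by
      intro m n hmn
      rcases hmn.eq_or_lt with rfl | hlt
      · exact (hs1 m).2.1
      · exact (hs2 m n hlt).2.1 (hs1 m).2.1
    have hfy : ∀ m, (s m).1 y = (s m).1 x := fun m =>
      cluster_eq_of_tendsto (cluster_map hy (hAc _ (hs1 m).1)) (hlim _ ⟨m, fun n hn => hmem m n hn⟩)
    have hgy : g y = g x := by
      have : g ∈ {h : X → ℝ | h y = h x} := cluster_mem_closed hg
        (isClosed_eq (continuous_apply _) (continuous_apply _)) (Eventually.of_forall fun n => hfy n)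
      exact this
    have hgy2 : g y = f x := by
      refine cluster_eq_of_tendsto (cluster_map hy (hS g hgS)) ?_
      have h1 := hlim f ⟨0, fun n _ => (hs1 n).2.2.1⟩
      refine h1.congr fun n => ?_
      exact (hge n (i n)).symm
    rw [← hgy, hgy2]
  rw [← hfg]
  exact hgS

end DoubleLimit

/-- A space with a dense relatively countably compact subset is Grothendieck. -/
theorem grothendieck_of_dense {X : Type} [TopologicalSpace X] [T1Space X] {D : Set X}
    (hDd : Dense D) (hD : CountablyCompactIn D) (hne : D.Nonempty) : IsGrothendieck X := by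
  intro S A hA
  have hDs : ∀ d : ℕ → X, (∀ n, d n ∈ D) → ∃ y, MapClusterPt y atTop d :=
    fun d hd => seq_cluster hD d hd
  -- the embedding of `S` into the product
  set e : S → (X → ℝ) := fun g => g.1.1 with he
  have hind : IsInducing e := IsInducing.subtypeVal.comp IsInducing.subtypeVal
  have hec : Continuous e := hind.continuous
  have hAc : ∀ g ∈ e '' A, Continuous g := by rintro _ ⟨g, _, rfl⟩; exact g.1.2
  have hSc : ∀ g ∈ range e, Continuous g := by rintro _ ⟨g, rfl⟩; exact g.1.2
  have hAs : ∀ a : ℕ → X → ℝ, (∀ n, a n ∈ e '' A) → ∃ g ∈ range e, MapClusterPt g atTop a := by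
    intro a ha
    choose b hb1 hb2 using ha
    obtain ⟨z, hz⟩ := seq_cluster hA b hb1
    refine ⟨e z, mem_range_self z, ?_⟩
    have h1 := cluster_map hz hec
    have h2 : (fun n => e (b n)) = a := funext hb2
    rwa [h2] at h1
  have hcl : closure (e '' A) ⊆ range e := fun f hf => step2 hDs hDd hne hAc hSc hAs hf
  have hcomp : IsCompact (closure (e '' A)) := by
    have hbd : ∀ x, ∃ M : ℝ, ∀ g ∈ e '' A, |g x| ≤ M := by
      intro x
      by_contra hno
      push Not at hno
      choose a ha1 ha2 using fun n : ℕ => hno n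
      obtain ⟨g, -, hg⟩ := hAs a ha1
      have h1 := cluster_map hg (continuous_apply x)
      have h2 : |g x| ∈ {t : ℝ | |g x| + 1 ≤ t} := by
        refine cluster_mem_closed (cluster_map h1 continuous_abs) (isClosed_le continuous_const continuous_id) ?_
        obtain ⟨N, hN⟩ := exists_nat_ge (|g x| + 1)
        filter_upwards [eventually_ge_atTop N] with n hn
        have h3 : (N : ℝ) ≤ n := by exact_mod_cast hn
        exact (hN.trans h3).trans (ha2 n).le
      have h3 : |g x| + 1 ≤ |g x| := h2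
      linarith
    choose M hM using hbd
    have hK : IsCompact (Set.pi univ fun x => Icc (-(M x)) (M x)) :=
      isCompact_univ_pi fun x => isCompact_Icc
    refine hK.of_isClosed_subset isClosed_closure (closure_minimal ?_ hK.isClosed)
    intro g hg x _
    exact abs_le.1 (hM x g hg)
  rw [hind.isCompact_iff]
  have h1 : e '' closure A = closure (e '' A) := by
    rw [hind.closure_eq_preimage_closure_image, image_preimage_eq_inter_range, inter_eq_left]
    exact hcl
  rw [h1]
  exact hcomp

/-! ### The spaces -/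

section Space

variable {D : Type}

/-- The compact zero-dimensional space in which everything lives: one coordinate for each
countable subset of `D`. -/
abbrev K (D : Type) : Type := {A : Set D // A.Countable} → Bool

open Classical in
/-- The trace of an ultrafilter on the countable subsets of `D`. -/
noncomputable def emb (u : Ultrafilter D) : K D := fun A => decide (A.1 ∈ u)

theorem emb_eq_true {u : Ultrafilter D} {A : {A : Set D // A.Countable}} :
    emb u A = true ↔ A.1 ∈ u := by
  simp [emb]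

theorem emb_eq_false {u : Ultrafilter D} {A : {A : Set D // A.Countable}} :
    emb u A = false ↔ A.1 ∉ u := by
  simp [emb]

theorem emb_pure {d : D} {A : {A : Set D // A.Countable}} :
    emb (pure d) A = true ↔ d ∈ A.1 := by
  rw [emb_eq_true]; exact Ultrafilter.mem_pure

/-- Two ultrafilters containing a countable set are determined by their traces. -/
theorem emb_inj {u v : Ultrafilter D} (h : emb u = emb v) {B : Set D} (hB : B.Countable)
    (hu : B ∈ u) : u = v := by
  have hv : B ∈ v := by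
    have := congrFun h ⟨B, hB⟩
    rw [emb_eq_true.2 hu] at this
    exact emb_eq_true.1 this.symm
  have key : ∀ s, s ∈ u → s ∈ v := by
    intro s hs
    have h1 : s ∩ B ∈ u := inter_mem hs hu
    have h2 := congrFun h ⟨s ∩ B, hB.mono inter_subset_right⟩
    rw [emb_eq_true.2 h1] at h2
    exact mem_of_superset (emb_eq_true.1 h2.symm) inter_subset_left
  apply Ultrafilter.coe_le_coe.1
  intro s hs
  by_contra hsu
  have h1 : sᶜ ∈ u := Ultrafilter.compl_mem_iff_notMem.2 hsu
  exact Ultrafilter.compl_notMem_iff.2 hs (key _ h1)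

theorem tendsto_emb {ι : Type} {l : Filter ι} {u : Ultrafilter D} {g : ι → D}
    (h : Tendsto g l u) : Tendsto (fun i => emb (pure (g i))) l (𝓝 (emb u)) := by
  rw [tendsto_pi_nhds]
  intro A
  by_cases hA : A.1 ∈ u
  · rw [emb_eq_true.2 hA]
    refine tendsto_nhds_of_eventually_eq ?_
    filter_upwards [h hA] with i hi
    exact emb_pure.2 hi
  · rw [emb_eq_false.2 hA]
    have hA' : A.1ᶜ ∈ u := Ultrafilter.compl_mem_iff_notMem.2 hA
    refine tendsto_nhds_of_eventually_eq ?_
    filter_upwards [h hA'] with i hi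
    rw [emb_eq_false]
    exact fun h' => hi (Ultrafilter.mem_pure.1 h')

/-- The filter of sets with countable complement. -/
def coc (D : Type) : Filter D :=
  Filter.comk Set.Countable countable_empty (fun _ ht _ hst => ht.mono hst)
    (fun _ hs _ ht => hs.union ht)

theorem coc_neBot [Uncountable D] : (coc D).NeBot := by
  rw [neBot_iff, ne_eq, ← empty_mem_iff_bot, coc, Filter.mem_comk, compl_empty]
  exact not_countable_univ

theorem tendsto_zero : Tendsto (fun d : D => emb (pure d)) (coc D) (𝓝 (fun _ => false)) := by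
  rw [tendsto_pi_nhds]
  intro A
  refine tendsto_nhds_of_eventually_eq ?_
  have : A.1ᶜ ∈ coc D := by rw [coc, Filter.mem_comk, compl_compl]; exact A.2
  filter_upwards [this] with d hd
  rw [emb_eq_false]
  exact fun h' => hd (Ultrafilter.mem_pure.1 h')

/-- The points of `D`, the point at infinity, and all ultrafilters of type `U`. -/
def XSet (D : Type) {W : Type} (U : Ultrafilter W) : Set (K D) :=
  {x | x = (fun _ => false) ∨ (∃ d, x = emb (pure d)) ∨
    ∃ f : W → D, Function.Injective f ∧ x = emb (U.map f)}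

/-- The copy of `D` in the space. -/
def Dset (D : Type) {W : Type} (U : Ultrafilter W) : Set (XSet D U) :=
  {x | ∃ d, x.1 = emb (pure d)}

noncomputable def pt {W : Type} (U : Ultrafilter W) (d : D) : XSet D U := ⟨emb (pure d), Or.inr (Or.inl ⟨d, rfl⟩)⟩

theorem map_ne_pure {W : Type} {U : Ultrafilter W} (hU : ∀ w, ({w} : Set W) ∉ U) {f : W → D}
    (hf : Function.Injective f) (d : D) : ({d} : Set D) ∉ U.map f := by
  intro h
  rw [Ultrafilter.mem_map] at h
  obtain ⟨w, hw⟩ := Ultrafilter.nonempty_of_mem h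
  have : f ⁻¹' {d} = {w} := by
    ext w'
    simp only [mem_preimage, mem_singleton_iff] at hw ⊢
    exact ⟨fun h' => hf (h'.trans hw.symm), fun h' => h' ▸ hw⟩
  rw [this] at h
  exact hU w h

theorem eq_pure_of_sing {W : Type} {U : Ultrafilter W} (hU : ∀ w, ({w} : Set W) ∉ U) {x : K D}
    (hx : x ∈ XSet D U) {d : D} (h : x ⟨{d}, countable_singleton d⟩ = true) : x = emb (pure d) := by
  rcases hx with rfl | ⟨d', rfl⟩ | ⟨f, hf, rfl⟩
  · exact absurd h (by simp)
  · have h1 : d' ∈ ({d} : Set D) := emb_pure.1 h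
    rw [mem_singleton_iff] at h1
    rw [h1]
  · exact absurd (emb_eq_true.1 h) (map_ne_pure hU hf d)

theorem dense_Dset [Uncountable D] {W : Type} (U : Ultrafilter W) : Dense (Dset D U) := by
  intro x
  obtain ⟨x, hx⟩ := x
  rcases hx with rfl | ⟨d, rfl⟩ | ⟨f, hf, rfl⟩
  · have := coc_neBot (D := D)
    refine mem_closure_of_tendsto (f := fun d : D => pt U d) (b := coc D) ?_
      (Eventually.of_forall fun d => ⟨d, rfl⟩)
    rw [IsInducing.subtypeVal.tendsto_nhds_iff]
    exact tendsto_zero
  · exact subset_closure ⟨d, rfl⟩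
  · refine mem_closure_of_tendsto (f := fun w : W => pt U (f w)) (b := (U : Filter W)) ?_
      (Eventually.of_forall fun w => ⟨f w, rfl⟩)
    rw [IsInducing.subtypeVal.tendsto_nhds_iff]
    exact tendsto_emb (u := U.map f) (by rw [Ultrafilter.coe_map]; exact tendsto_map)

theorem cc_Dset {W : Type} [Countable W] {U : Ultrafilter W} (hU : ∀ w, ({w} : Set W) ∉ U) :
    CountablyCompactIn (Dset D U) := by
  intro B hB hBi
  -- an injection of `W` into `B`
  obtain ⟨ι, hι⟩ := exists_injective_nat W
  have : Infinite B := hBi.to_subtype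
  set g : W → B := fun w => Infinite.natEmbedding B (ι w) with hg
  have hginj : Function.Injective g := (Infinite.natEmbedding B).injective.comp hι
  choose f hf using fun w => hB (g w).2
  have hfinj : Function.Injective f := by
    intro w w' h
    apply hginj
    apply Subtype.ext
    apply Subtype.ext
    rw [hf, hf, h]
  refine ⟨⟨emb (U.map f), Or.inr (Or.inr ⟨f, hfinj, rfl⟩)⟩, ?_⟩
  rw [accPt_iff_nhds]
  intro N hN
  have ht : Tendsto (fun w : W => (g w).1) U (𝓝 (⟨emb (U.map f), Or.inr (Or.inr ⟨f, hfinj, rfl⟩)⟩ : XSet D U)) := by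
    rw [IsInducing.subtypeVal.tendsto_nhds_iff]
    have h1 := tendsto_emb (u := U.map f) (l := (U : Filter W)) (g := f)
      (by rw [Ultrafilter.coe_map]; exact tendsto_map)
    refine h1.congr fun w => ?_
    exact (hf w).symm
  obtain ⟨w, hw⟩ := Ultrafilter.nonempty_of_mem (ht hN)
  refine ⟨(g w).1, ⟨hw, (g w).2⟩, fun h => ?_⟩
  have h1 := congrArg Subtype.val h
  rw [hf w] at h1
  have h2 : emb (pure (f w)) ⟨{f w}, countable_singleton _⟩ = true := emb_pure.2 rfl
  rw [h1] at h2
  exact map_ne_pure hU hfinj _ (emb_eq_true.1 h2)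

theorem grothendieck_X [Uncountable D] {W : Type} [Countable W] {U : Ultrafilter W}
    (hU : ∀ w, ({w} : Set W) ∉ U) : IsGrothendieck (XSet D U) := by
  obtain ⟨d⟩ : Nonempty D := inferInstance
  exact grothendieck_of_dense (dense_Dset U) (cc_Dset hU) ⟨pt U d, d, rfl⟩

end Space

/-! ### The product -/

section Product

variable {D : Type} {W W' : Type} {U : Ultrafilter W} {V : Ultrafilter W'}

/-- The part of the diagonal lying over `B ⊆ D`. -/
def Delta (U : Ultrafilter W) (V : Ultrafilter W') (B : Set D) : Set (XSet D U × XSet D V) :=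
  {p | ∃ d ∈ B, p.1.1 = emb (pure d) ∧ p.2.1 = emb (pure d)}

theorem isOpen_Delta (hU : ∀ w, ({w} : Set W) ∉ U) (hV : ∀ w, ({w} : Set W') ∉ V) (B : Set D) :
    IsOpen (Delta U V B) := by
  have : Delta U V B = ⋃ d ∈ B, ({p | p.1.1 ⟨{d}, countable_singleton d⟩ = true} ∩
      {p | p.2.1 ⟨{d}, countable_singleton d⟩ = true}) := by
    ext p
    simp only [Delta, mem_iUnion, exists_prop]
    constructor
    · rintro ⟨d, hd, h1, h2⟩
      refine ⟨d, hd, ?_, ?_⟩
      · show p.1.1 _ = true
        rw [h1]; exact emb_pure.2 rfl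
      · show p.2.1 _ = true
        rw [h2]; exact emb_pure.2 rfl
    · rintro ⟨d, hd, h1, h2⟩
      exact ⟨d, hd, eq_pure_of_sing hU p.1.2 h1, eq_pure_of_sing hV p.2.2 h2⟩
  rw [this]
  refine isOpen_biUnion fun d _ => IsOpen.inter ?_ ?_
  · have hc : Continuous fun p : XSet D U × XSet D V => p.1.1 ⟨{d}, countable_singleton d⟩ :=
      (continuous_apply _).comp (continuous_subtype_val.comp continuous_fst)
    exact (isOpen_discrete {true}).preimage hc
  · have hc : Continuous fun p : XSet D U × XSet D V => p.2.1 ⟨{d}, countable_singleton d⟩ :=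
      (continuous_apply _).comp (continuous_subtype_val.comp continuous_snd)
    exact (isOpen_discrete {true}).preimage hc

theorem isClosed_Delta (hU : ∀ w, ({w} : Set W) ∉ U)
    (hUV : ∀ (f : W → D) (g : W' → D), Function.Injective f → Function.Injective g →
      U.map f ≠ V.map g) {B : Set D} (hB : B.Countable) :
    IsClosed (Delta U V B) := by
  have : Delta U V B = {p | p.1.1 = p.2.1} ∩ {p | p.1.1 ⟨B, hB⟩ = true} := by
    ext p
    obtain ⟨⟨x, hx⟩, ⟨y, hy⟩⟩ := p
    constructor
    · rintro ⟨d, hd, h1, h2⟩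
      simp only at h1 h2
      subst h1 h2
      exact ⟨rfl, emb_pure.2 hd⟩
    · rintro ⟨h1, h⟩
      have h1' : x = y := h1
      have h' : x ⟨B, hB⟩ = true := h
      subst h1'
      rcases hx with rfl | ⟨d, rfl⟩ | ⟨f, hf, rfl⟩
      · exact absurd h' (by simp)
      · exact ⟨d, emb_pure.1 h', rfl, rfl⟩
      · exfalso
        rcases hy with h0 | ⟨d, hd⟩ | ⟨g, hg, hfg⟩
        · rw [h0] at h'; exact absurd h' (by simp)
        · have h2 := emb_inj hd hB (emb_eq_true.1 h')
          refine map_ne_pure hU hf d ?_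
          rw [h2]
          exact Ultrafilter.mem_pure.2 rfl
        · exact hUV f g hf hg (emb_inj hfg hB (emb_eq_true.1 h'))
  rw [this]
  refine IsClosed.inter ?_ ?_
  · exact isClosed_eq (continuous_subtype_val.comp continuous_fst)
      (continuous_subtype_val.comp continuous_snd)
  · have hc : Continuous fun p : XSet D U × XSet D V => p.1.1 ⟨B, hB⟩ :=
      (continuous_apply _).comp (continuous_subtype_val.comp continuous_fst)
    exact (isClosed_discrete {true}).preimage hc

/-- The indicator function of the part of the diagonal over `B`. -/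
noncomputable def ind (U : Ultrafilter W) (V : Ultrafilter W') (B : Set D) :
    XSet D U × XSet D V → ℝ := (Delta U V B).indicator 1

theorem ind_cont (hU : ∀ w, ({w} : Set W) ∉ U) (hV : ∀ w, ({w} : Set W') ∉ V)
    (hUV : ∀ (f : W → D) (g : W' → D), Function.Injective f → Function.Injective g →
      U.map f ≠ V.map g) {B : Set D} (hB : B.Countable) : Continuous (ind U V B) := by
  have hcl : IsClopen (Delta U V B) := ⟨isClosed_Delta hU hUV hB, isOpen_Delta hU hV B⟩
  refine continuous_one.indicator fun a ha => ?_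
  rw [hcl.frontier_eq] at ha
  exact absurd ha (notMem_empty a)

theorem ind_tendsto {ι : Type} {l : Filter ι} {B : ι → Set D} {L : Set D}
    (h1 : ∀ d ∈ L, ∀ᶠ i in l, d ∈ B i) (h2 : ∀ d ∉ L, ∀ᶠ i in l, d ∉ B i) :
    Tendsto (fun i => ind U V (B i)) l (𝓝 (ind U V L)) := by
  classical
  rw [tendsto_pi_nhds]
  intro p
  refine tendsto_nhds_of_eventually_eq ?_
  by_cases hp : ∃ d, p.1.1 = emb (pure d) ∧ p.2.1 = emb (pure d)
  · obtain ⟨d, hd1, hd2⟩ := hp
    have key : ∀ C : Set D, p ∈ Delta U V C ↔ d ∈ C := by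
      intro C
      constructor
      · rintro ⟨d', hd', h, -⟩
        have h3 : d' = d := by
          rw [hd1] at h
          have h4 : emb (pure d) ⟨{d}, countable_singleton d⟩ = true := emb_pure.2 rfl
          rw [h] at h4
          exact emb_pure.1 h4
        rwa [h3] at hd'
      · intro hd
        exact ⟨d, hd, hd1, hd2⟩
    by_cases hL : d ∈ L
    · filter_upwards [h1 d hL] with i hi
      rw [ind, ind, indicator_of_mem ((key _).2 hi), indicator_of_mem ((key _).2 hL)]
    · filter_upwards [h2 d hL] with i hi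
      rw [ind, ind, indicator_of_notMem (fun h => hi ((key _).1 h)),
        indicator_of_notMem (fun h => hL ((key _).1 h))]
  · have key : ∀ C : Set D, p ∉ Delta U V C := by
      rintro C ⟨d, -, h⟩
      exact hp ⟨d, h⟩
    exact Eventually.of_forall fun i => by
      rw [ind, ind, indicator_of_notMem (key _), indicator_of_notMem (key _)]

theorem not_weakly [Uncountable D] (hU : ∀ w, ({w} : Set W) ∉ U) (hV : ∀ w, ({w} : Set W') ∉ V)
    (hUV : ∀ (f : W → D) (g : W' → D), Function.Injective f → Function.Injective g →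
      U.map f ≠ V.map g) : ¬ IsWeaklyGrothendieck (XSet D U × XSet D V) := by
  classical
  intro hG
  set A : Set (Cp (XSet D U × XSet D V)) := {h | ∃ B : Set D, B.Countable ∧ h.1 = ind U V B} with hA
  have hAc : CountablyCompactIn A := by
    intro C hC hCi
    have : Infinite C := hCi.to_subtype
    set a : ℕ → C := fun n => Infinite.natEmbedding C n with ha
    have hainj : Function.Injective a := (Infinite.natEmbedding C).injective
    choose B hB1 hB2 using fun n => hC (a n).2
    set L : Set D := {d | ∀ᶠ n in (hyperfilter ℕ : Filter ℕ), d ∈ B n} with hL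
    have hLc : L.Countable := by
      refine (countable_iUnion hB1).mono fun d hd => ?_
      obtain ⟨n, hn⟩ := Eventually.exists hd
      exact mem_iUnion.2 ⟨n, hn⟩
    refine ⟨⟨ind U V L, ind_cont hU hV hUV hLc⟩, ?_⟩
    rw [accPt_iff_nhds]
    intro N hN
    have ht : Tendsto (fun n => (a n).1) (hyperfilter ℕ : Filter ℕ)
        (𝓝 (⟨ind U V L, ind_cont hU hV hUV hLc⟩ : Cp (XSet D U × XSet D V))) := by
      refine tendsto_subtype_rng.2 ?_
      have h1 : Tendsto (fun n => ind U V (B n)) (hyperfilter ℕ : Filter ℕ) (𝓝 (ind U V L)) := by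
        refine ind_tendsto (fun d hd => hd) (fun d hd => ?_)
        exact Ultrafilter.eventually_not.2 hd
      refine h1.congr fun n => ?_
      exact (hB2 n).symm
    have hmem : {n | (a n).1 ∈ N} ∈ (hyperfilter ℕ : Filter ℕ) := ht hN
    have hinf : {n | (a n).1 ∈ N}.Infinite := fun hfin => notMem_hyperfilter_of_finite hfin hmem
    by_contra hno
    push Not at hno
    have h3 : ∀ n ∈ {n | (a n).1 ∈ N}, (a n).1 = ⟨ind U V L, ind_cont hU hV hUV hLc⟩ :=
      fun n hn => hno _ ⟨hn, (a n).2⟩
    obtain ⟨n, hn⟩ := hinf.nonempty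
    obtain ⟨m, hm, hmn⟩ := hinf.exists_gt n
    have h4 : a n = a m := Subtype.ext ((h3 n hn).trans (h3 m hm).symm)
    exact absurd (hainj h4) hmn.ne
  have hcomp : IsCompact (closure A) := hG A hAc
  have himg : IsClosed (Subtype.val '' closure A) := (hcomp.image continuous_subtype_val).isClosed
  have hlim : Tendsto (fun F : Finset D => ind U V (F : Set D)) atTop (𝓝 (ind U V (univ : Set D))) := by
    refine ind_tendsto (fun d _ => ?_) (fun d hd => absurd (mem_univ d) hd)
    filter_upwards [eventually_ge_atTop {d}] with F hF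
    exact hF (Finset.mem_singleton_self d)
  have hmem : ind U V (univ : Set D) ∈ Subtype.val '' closure A := by
    refine himg.mem_of_tendsto hlim (Eventually.of_forall fun F => ?_)
    have hFc : (F : Set D).Countable := F.countable_toSet
    exact ⟨⟨ind U V F, ind_cont hU hV hUV hFc⟩, subset_closure ⟨F, hFc, rfl⟩, rfl⟩
  obtain ⟨⟨f, hf⟩, -, hfe⟩ := hmem
  simp only at hfe
  rw [hfe] at hf
  -- discontinuity at the point at infinity
  have hz : (fun _ => false : K D) ∈ XSet D U := Or.inl rfl
  have hz' : (fun _ => false : K D) ∈ XSet D V := Or.inl rfl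
  have ht : Tendsto (fun d : D => ((pt U d, pt V d) : XSet D U × XSet D V)) (coc D)
      (𝓝 (⟨_, hz⟩, ⟨_, hz'⟩)) := by
    refine Tendsto.prodMk_nhds ?_ ?_
    · rw [IsInducing.subtypeVal.tendsto_nhds_iff]; exact tendsto_zero
    · rw [IsInducing.subtypeVal.tendsto_nhds_iff]; exact tendsto_zero
  have h1 := (hf.tendsto _).comp ht
  have h2 : ind U V (univ : Set D) (⟨_, hz⟩, ⟨_, hz'⟩) = 0 := by
    rw [ind, indicator_of_notMem]
    rintro ⟨d, -, h, -⟩
    have h3 : emb (pure d) ⟨{d}, countable_singleton d⟩ = true := emb_pure.2 rfl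
    rw [← h] at h3
    exact absurd h3 (by simp)
  have h3 : ∀ d : D, (ind U V (univ : Set D) ∘ fun d : D => ((pt U d, pt V d) : XSet D U × XSet D V)) d = 1 := by
    intro d
    have : ((pt U d, pt V d) : XSet D U × XSet D V) ∈ Delta U V (univ : Set D) := ⟨d, mem_univ d, rfl, rfl⟩
    rw [Function.comp_apply, ind, indicator_of_mem this]
    rfl
  rw [h2] at h1
  have h4 : Tendsto (fun _ : D => (1 : ℝ)) (coc D) (𝓝 0) := h1.congr h3
  have := coc_neBot (D := D)
  have h5 := tendsto_nhds_unique h4 tendsto_const_nhds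
  exact one_ne_zero h5.symm

end Product

/-! ### Two ultrafilters of different type -/

section Ultra

/-- The countable index set of the second ultrafilter. -/
abbrev T : Type := ℕ × Finset (List ℕ)

/-- The first `k` values of `h`, coded. -/
def pre (h : ℕ → T) (k : ℕ) : List ℕ := (List.range k).map fun i => Encodable.encode (h i)

theorem eventually_pre {h h' : ℕ → T} (hne : h ≠ h') : ∀ᶠ k in atTop, pre h k ≠ pre h' k := by
  obtain ⟨i, hi⟩ := Function.ne_iff.1 hne
  filter_upwards [eventually_gt_atTop i] with k hk he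
  rw [pre, pre, List.map_inj_left] at he
  exact hi (Encodable.encode_injective (he i (List.mem_range.2 hk)))

/-- An independent family of subsets of `T`. -/
def Ih (h : ℕ → T) : Set T := {x | pre h x.1 ∈ x.2}

open Classical in
/-- A set that is not in the image of the hyperfilter under `h`. -/
noncomputable def Jh (h : ℕ → T) : Set T :=
  if Ih h ∈ (hyperfilter ℕ).map h then (Ih h)ᶜ else Ih h

theorem Jh_notMem (h : ℕ → T) : Jh h ∉ (hyperfilter ℕ).map h := by
  rw [Jh]
  split_ifs with hc
  · exact Ultrafilter.compl_notMem_iff.2 hc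
  · exact hc

/-- The filter generated by the sets `Jh h` and the cofinite sets. -/
noncomputable def FF : Filter T where
  sets := {s | ∃ (H : Finset (ℕ → T)) (E : Finset T), ∀ x, x ∉ E → (∀ h ∈ H, x ∈ Jh h) → x ∈ s}
  univ_sets := ⟨∅, ∅, fun x _ _ => mem_univ x⟩
  sets_of_superset := fun ⟨H, E, h⟩ hst => ⟨H, E, fun x hx hx' => hst (h x hx hx')⟩
  inter_sets := by
    classical
    rintro s t ⟨H, E, h⟩ ⟨H', E', h'⟩
    refine ⟨H ∪ H', E ∪ E', fun x hx hx' => ⟨h x (fun h1 => hx (Finset.mem_union_left _ h1))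
      (fun g hg => hx' g (Finset.mem_union_left _ hg)),
      h' x (fun h1 => hx (Finset.mem_union_right _ h1))
      (fun g hg => hx' g (Finset.mem_union_right _ hg))⟩⟩

theorem FF_neBot : FF.NeBot := by
  classical
  rw [neBot_iff, ne_eq, ← empty_mem_iff_bot]
  rintro ⟨H, E, hx⟩
  have h1 : ∀ᶠ k in atTop, ∀ h ∈ H, ∀ h' ∈ H, h ≠ h' → pre h k ≠ pre h' k := by
    rw [Filter.eventually_all_finset]
    intro h _
    rw [Filter.eventually_all_finset]
    intro h' _
    by_cases hhh : h = h'
    · exact Eventually.of_forall fun k hc => absurd hhh hc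
    · filter_upwards [eventually_pre hhh] with k hk _
      exact hk
  have h2 : ∀ᶠ k in atTop, ∀ x ∈ E, x.1 < k := by
    rw [Filter.eventually_all_finset]
    intro x _
    exact eventually_gt_atTop x.1
  obtain ⟨k, hk1, hk2⟩ := (h1.and h2).exists
  set S : Finset (List ℕ) := (H.filter fun h => Ih h ∉ (hyperfilter ℕ).map h).image fun h => pre h k
    with hS
  refine hx (k, S) (fun hE => (hk2 _ hE).ne rfl) fun h hh => ?_
  by_cases hc : Ih h ∈ (hyperfilter ℕ).map h
  · rw [Jh, if_pos hc]
    intro hmem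
    have hmem' : pre h k ∈ S := hmem
    rw [hS, Finset.mem_image] at hmem'
    obtain ⟨h', hh', he⟩ := hmem'
    rw [Finset.mem_filter] at hh'
    have : h' ≠ h := by
      rintro rfl
      exact hh'.2 hc
    exact hk1 h' hh'.1 h hh this he
  · rw [Jh, if_neg hc]
    show pre h k ∈ S
    exact Finset.mem_image_of_mem _ (Finset.mem_filter.2 ⟨hh, hc⟩)

/-- There is a nonprincipal ultrafilter on `T` which is not an image of the hyperfilter. -/
theorem exists_V : ∃ V : Ultrafilter T, (∀ w, ({w} : Set T) ∉ V) ∧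
    ∀ h : ℕ → T, (hyperfilter ℕ).map h ≠ V := by
  have := FF_neBot
  refine ⟨Ultrafilter.of FF, fun w hw => ?_, fun h hh => ?_⟩
  · have h1 : ({w} : Set T)ᶜ ∈ FF := ⟨∅, {w}, fun x hx _ => fun hxw => hx (Finset.mem_singleton.2 hxw)⟩
    exact Ultrafilter.compl_notMem_iff.2 hw (Ultrafilter.of_le FF h1)
  · have h1 : Jh h ∈ FF := ⟨{h}, ∅, fun x _ hx => hx h (Finset.mem_singleton_self h)⟩
    have h2 : Jh h ∈ (Ultrafilter.of FF : Filter T) := Ultrafilter.of_le FF h1
    rw [← hh] at h2
    exact Jh_notMem h h2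

end Ultra

/-- The property of being a g-space transfers along homeomorphisms. -/
theorem IsGSpace.of_homeomorph {Z Z' : Type} [TopologicalSpace Z] [TopologicalSpace Z']
    (e : Z ≃ₜ Z') (h : IsGSpace Z) : IsGSpace Z' := by
  intro A hA
  have h1 : CountablyCompactIn (e ⁻¹' A) := by
    intro B hB hBi
    obtain ⟨z, hz⟩ := hA (e '' B) (by rintro _ ⟨b, hb, rfl⟩; exact hB hb)
      (hBi.image e.injective.injOn)
    refine ⟨e.symm z, ?_⟩
    rw [accPt_iff_nhds] at hz ⊢
    intro N hN
    have hN' : e.symm ⁻¹' N ∈ 𝓝 z := e.symm.continuous.continuousAt hN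
    obtain ⟨y, ⟨hy1, b, hb, hby⟩, hy2⟩ := hz _ hN'
    subst hby
    refine ⟨b, ⟨by simpa using hy1, hb⟩, fun hbz => hy2 ?_⟩
    rw [hbz, e.apply_symm_apply]
  have h2 := (h _ h1).image e.continuous
  rwa [e.image_closure, e.image_preimage] at h2

/-- Every Grothendieck space is weakly Grothendieck. -/
theorem IsGrothendieck.isWeaklyGrothendieck {X : Type} [TopologicalSpace X]
    (h : IsGrothendieck X) : IsWeaklyGrothendieck X :=
  IsGSpace.of_homeomorph (Homeomorph.Set.univ (Cp X)) (h univ)

/-- Main theorem: there are Tychonoff spaces `X` and `Y`, both Grothendieck, whose product is not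
even weakly Grothendieck (and hence is not Grothendieck). -/
theorem result : ∃ (X Y : Type) (_ : TopologicalSpace X) (_ : TopologicalSpace Y),
    T35Space X ∧ T35Space Y ∧ IsGrothendieck X ∧ IsGrothendieck Y ∧
      ¬ IsWeaklyGrothendieck (X × Y) := by
  obtain ⟨V, hV, hUV⟩ := exists_V
  have hU : ∀ w, ({w} : Set ℕ) ∉ hyperfilter ℕ := fun w hw =>
    notMem_hyperfilter_of_finite (finite_singleton w) hw
  have hUV' : ∀ (f : ℕ → ℝ) (g : T → ℝ), Function.Injective f → Function.Injective g →
      (hyperfilter ℕ).map f ≠ V.map g := by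
    intro f g _ hg he
    have h1 := congrArg (Ultrafilter.map (Function.invFun g)) he
    rw [Ultrafilter.map_map, Ultrafilter.map_map, Function.invFun_comp hg, Ultrafilter.map_id] at h1
    exact hUV _ h1
  have hw := not_weakly (D := ℝ) hU hV hUV'
  refine ⟨XSet ℝ (hyperfilter ℕ), XSet ℝ V, inferInstance, inferInstance, inferInstance,
    inferInstance, grothendieck_X hU, grothendieck_X hV, hw⟩

end Pool.Agent.Results.MP_20595b_gt.ProductFails
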